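import Pool.Agent.Helper11.PP.GoalsD
import Pool.Agent.Helper42.PP.Goals1
import Pool.Agent.Helper76.RD.Goals3
import Pool.Agent.Helper77.RL.Goals2

/-!
# Project PP (MP_fc6b1e_nt, density theorem): all admissible extensions `L`, families of pairs

From a trivial twisted Selmer group of `a` to the `Σ`-Leopoldt statement for all the characters `χ₀ φ ψ`, and the
final form of the density theorem.
-/

namespace Pool.Agent.Helper77.PPL

open NumberField Polynomial Module IsDedekindDomain Pool.Agent.Helper51.SigLeo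
open Pool.Agent.Helper51.RP Pool.Agent.Helper42.RD Pool.Agent.Helper77.RL Pool.Agent.Helper11.PP

/-- **D_LPN** (the `P`-part is locally trivial at the primes with nontrivial decomposition group above the
primes `v` with `N(v) ≡ 1 mod p`).

PROOF (see `Pool/Agent/Helper11/RP/NSP.lean` for (0)). (0) The decomposition group of `w` in `Gal(M/K)` is a
nontrivial subgroup of `⟨δ⟩`, generated by `g = δ^e` with `e ∣ m`, `0 < e < m`; `w.valuation (g y) =
w.valuation y`. (1) CLAIM: there is `t ≥ 1`, `t ≡ 1 mod p`, with `w(g u - u^t) < 1` for all `u ∈ M` with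
`w(u) = 1`. Let `c ∈ 𝓞_M` be a generator of the cyclic group `(𝓞_M/w)ˣ`; `g c` is not in `w`, so
`g c ≡ c^t mod w` for some `t ≥ 1`. Every `u` with `w(u) = 1` satisfies `w(u - c^k) < 1` for some `k`
(`u = r/s`, `r, s ∈ 𝓞_M` outside of `w`), so `w(g u - (g c)^k) < 1` and `w(g u - u^t) < 1`. As `p ∣ N(v) - 1`
there is `b ∈ 𝓞_K` whose class in `(𝓞_K/v)ˣ` has order `p`; `𝓞_K/v → 𝓞_M/w` is injective, so the class of
`b` in `(𝓞_M/w)ˣ` has order `p`; `g b = b`, so `b ≡ b^t mod w`, and `p ∣ t - 1`. (2) CLAIM: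
`LocPow p w (g y/y)` for all `y ∈ Mˣ`. Let `z = g y/y`, `w(z) = 1`, `d = m/e`, so `g^d = 1` and `d` is prime to
`p`. `∏_{i<d} g^i z = g^d y/y = 1`, and `g^i z ≡ z^(t^i) mod w` by (1) (induction, `g` preserves `w`). So
`z^s ≡ 1 mod w` with `s = ∑_{i<d} t^i ≡ d mod p`, prime to `p`. Choose `s', k` with `s s' = 1 + p k`; then
`z (z^k)^p = z^(s s') ≡ 1 mod w`. (3) Let `u P + v' (X^e - 1) = 1` in `F_p[X]` (`PhiData.cop`). Up to `p`-th
powers `x ≡ pol u δ (pol P δ x) · (g y/y)` with `y = pol v' δ x` (the rules `pol (a b) δ ≡ pol a δ ∘ pol b δ`,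
`pol (a + b) δ x ≡ pol a δ x · pol b δ x`, see `RP.S_LOB`); the first factor is a `p`-th power, and
`LocPow p w` is stable under products and contains the `p`-th powers. -/
def D_LPN : Prop :=
  ∀ (p : ℕ) [Fact p.Prime] (k : Type) [NormedField k] [NormedAlgebra ℚ_[p] k] (K M : Type)
    [Field K] [NumberField K] [Field M] [NumberField M] [Algebra K M] [IsGalois K M] (m : ℕ)
    (δ : M ≃ₐ[K] M) (ζ : k) (Φ : ℤ_[p][X]) (P : (ZMod p)[X]), PhiData p m ζ Φ P →
    orderOf δ = m → finrank K M = m →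
  ∀ (w : HeightOneSpectrum (𝓞 M)) (v : HeightOneSpectrum (𝓞 K)), Above w v → ¬ FreeP K w →
    p ∣ Ideal.absNorm v.asIdeal - 1 → ∀ x : Mˣ, Pw p (pol P δ x) → LocPow p w (x : M)

/-- The primes `w` of `M` with trivial decomposition group over `K`, above which there is a prime of `M₁` at
which the valuation of `a` is not a multiple of `p`. -/
def RA (p : ℕ) (K : Type) {M M₁ : Type} [Field K] [Field M] [NumberField M] [Field M₁]
    [NumberField M₁] [Algebra K M] [Algebra M M₁] (a : M₁) : Set (HeightOneSpectrum (𝓞 M)) :=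
  {w | FreeP K w ∧ ∃ W : HeightOneSpectrum (𝓞 M₁), Above W w ∧ ¬ (p : ℤ) ∣ ordv W a}

/-- **D_DAT** (a datum for `a`). If `a ∈ 𝓞_{K₁}`, `a ≡ 1 mod p³`, is of type `ω`, there is a datum `(R, α)`, `R` as
above, which matches `a` and whose Selmer group is contained in the twisted Selmer group of `a`.

PROOF (from `D_LPN`, `P_OMG`, `P_VIS`, `P_UPR`, `RD.E_TRF`, `RD.E_TOW`, `RD.E_SHF`, `RP.S_NSP`). Write `a* = (-1)^(p-1) a`,
`R = RA p K a`. (0) Every prime of `M₁` (`M`, `K₁`) is above exactly one prime of `K`, and the primes of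
`M₁` above a prime `v` of `K` are conjugate under `Gal(M₁/K)`. If `W, W'` are above `v` and `p ∤ ord_W(a)` then
`p ∤ ord_{W'}(a)`: `W'.valuation (g y) = W.valuation y`, `g a = a^n c^p` (the restriction of `g` to `K₁`, `OmType`),
`ord_W(a) = ord_{W'}(g a) ≡ n ord_{W'}(a)`. If `p ∤ ord_W(a)` then `W` is not above `p` (`a ≡ 1 mod p³`, so
`ord_W(a) = 0` if `W ∣ p`), `Q = W ∩ K₁` has `p ∤ ord_Q(a)` (`E_TRF` for `M₁/K₁`), so `FreeP K Q` by `P_OMG` (3), and
`N(Q) = N(v)`, `p ∣ N(v) - 1` by `P_VIS` (3).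
(1) *The datum.* `R` is finite (finitely many `W` with `ord_W(a) ≠ 0`), and stable under conjugation by (0).
`copr`, `norm`: by (0); `N(w) = N(v)` for `w ∈ R` by `P_VIS` (2), (1). For `v` below some `w ∈ R` choose a
prime `Q` of `K₁` above `v`: by (0) `p ∤ ord_Q(a)`, `FreeP K Q`. Let `i, j ∈ ℤ` with `i ord_Q(a) + p j = 1` and
`t = a*^i π^(p j)`, `π ∈ K₁` with `ord_Q(π) = 1`, so `ord_Q(t) = 1`; choose `α_v ∈ K` with
`Q.valuation (α_v/t - 1) < 1` (`e = f = 1` for `Q/v`, see `Helper2.RL.ef_free`, `residue_surj` in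
`Pool/Agent/Helper2/RL/EF1.lean`: `α_v = α c` with `α ∈ K`, `ord_v(α) = 1`, and `c ∈ 𝓞_K` congruent to the
`Q`-unit `t/α`). `ord_v(α_v) = 1 = ord_w(α_v)` for `w ∈ R` above `v` (`e(w/v) = 1`). With `j' ∈ ℕ`,
`i j' ≡ -1 mod p`, `a* α_v^(j')` is locally a `p`-th power at `Q`; by `E_SHF` the same holds, with another
`j'`, at all the `Q` above `v`. Put `al w = α_v`; `const` is clear (conjugate primes are above the same `v`).
(2) *Match.* `free` is the definition of `R`. `ram`: let `w ∈ R`, `W` above `w` with `p ∤ ord_W(a)`, `Q = W ∩ K₁`;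
`a* α_v^(j')` is locally a `p`-th power at `Q`, so at `W`.
(3) *Comparison.* Let `SelD x`; *pol* and *sig* are the same. Let `W` be a prime of `M₁`, `w`, `Q`, `v` the
primes below. *`p ∣ ord_W(a)`.* If `w` is not free over `K`, `p ∣ ord_w(x)` by `S_NSP`. If `w` is free then
`w ∉ R` by (0), and `p ∣ ord_w(x)`. So `p ∣ ord_W(x)` (`E_TRF`). *`p ∤ ord_W(a)`.* If `w` is not free,
`LocPow p w x` by `D_LPN` and (0), so `LocPow p W x`: `Tame` with exponent `0`. If `w` is free then `w ∈ R`: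
`LocPow p w (x α_v^i)` for some `i`, and `LocPow p W (a* α_v^j)` for some `j` (as in (2)). `ord_W` of the
latter gives `ord_W(a) + j ord_W(α_v) ≡ 0 mod p`, so `p ∤ j`. Choose `l ∈ ℕ` with `j l ≡ i mod p` and
`i' = (p - 1) l`: `x a*^(i') = x (a*^l)^p a*^(-l)`, and up to local `p`-th powers at `W` `a*^(-l) ≡ α_v^(j l) ≡ α_v^i`,
so `LocPow p W (x a*^(i'))`. -/
def D_DAT : Prop :=
  ∀ (p : ℕ) [Fact p.Prime] (k : Type) [NormedField k] [NormedAlgebra ℚ_[p] k]
    (K M K₁ M₁ : Type) [Field K] [NumberField K] [Field M] [NumberField M] [Field K₁]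
    [NumberField K₁] [Field M₁] [NumberField M₁] [Algebra K M] [Algebra K K₁] [Algebra K M₁]
    [Algebra M M₁] [Algebra K₁ M₁] [IsScalarTower K M M₁] [IsScalarTower K K₁ M₁] [IsGalois K M]
    [IsGalois K K₁] [IsGalois K M₁] (ε : K₁), Tower p K M K₁ M₁ ε →
  ∀ (m : ℕ) (δ : M ≃ₐ[K] M) (ζ : k) (Φ : ℤ_[p][X]) (P : (ZMod p)[X]), PhiData p m ζ Φ P →
    orderOf δ = m → finrank K M = m →
  ∀ a : 𝓞 K₁, a ≠ 0 → (p : 𝓞 K₁) ^ 3 ∣ a - 1 → OmType p K ε (a : K₁) →
  ∃ al : HeightOneSpectrum (𝓞 M) → K,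
    IsDat p (RA p K (M := M) (algebraMap K₁ M₁ (a : K₁))) al ∧
    Match p (RA p K (M := M) (algebraMap K₁ M₁ (a : K₁))) al (algebraMap K₁ M₁ (a : K₁)) ∧
    ∀ (L : IwasawaLog p k) (T : Set (K →+* k)) (x : Mˣ),
      Pool.Agent.Helper42.RD.SelD L (above T) P δ
        (RA p K (M := M) (algebraMap K₁ M₁ (a : K₁))) al x →
      Sel L (above T) P δ (algebraMap K₁ M₁ (a : K₁)) x

/-- **D_GOL** (trivial twisted Selmer group implies good for all admissible `L`). As `RL.L_GOO`, with the twisted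
Selmer group of `a` instead of a datum.

PROOF (from `D_DAT`, `RL.L_GOO`, `RD.E_TOW`, `RD.E_TRF`, `P_UPR`). `E_TOW` gives the hypotheses on `M₁/M`. Let `al` be
given by `D_DAT`. If `SelD x` then `Sel x`, so `Pw p x`. `L_GOO` applies with the image of `a` in `𝓞_{M₁}`,
`R = RA`; the set `{v | ∃ w ∈ R, Above w v}` is the set in the statement: if `w ∈ R` is above `v`, `W` above `w`
with `p ∤ ord_W(a)`, then `p ∤ ord_Q(a)` for `Q = W ∩ K₁` (`E_TRF`), which is above `v`; conversely, let `w` be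
free above `v`, `Q` above `v` with `p ∤ ord_Q(a)`, `W` above `Q`, `W'` above `w`; `p ∤ ord_W(a)`, and `W'` is conjugate to
`W`, so `p ∤ ord_{W'}(a)` (see (0) in `D_DAT`). -/
def D_GOL : Prop :=
  ∀ (p : ℕ) [Fact p.Prime] (K : Type) [Field K] [NumberField K]
    (ιinf : AlgebraicClosure K →+* ℂ) (ιp : AlgebraicClosure K →+* ℂ_[p]) (Lg : IwasawaLog p ℂ_[p])
    (S : Set (K →+* ℂ)), PlaceClosed (TSet ιinf ιp S) →
  ∀ (M : IntermediateField K (AlgebraicClosure K)) [NumberField M] [IsGalois K M]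
    (χ₀ : (M ≃ₐ[K] M) →* ℂ_[p]ˣ), Function.Injective χ₀ → (finrank K M).Coprime p →
    (∀ ξ : AlgebraicClosure K, IsPrimitiveRoot ξ p → ¬ M ≤ IntermediateField.adjoin K {ξ}) →
  ∀ (δ : M ≃ₐ[K] M) (Φ : ℤ_[p][X]) (P : (ZMod p)[X]), orderOf δ = finrank K M →
    PhiData p (finrank K M) ((χ₀ δ : ℂ_[p]ˣ) : ℂ_[p]) Φ P →
  ∀ (K₁ M₁ : Type) [Field K₁] [NumberField K₁] [Field M₁] [NumberField M₁] [Algebra K K₁]
    [Algebra K M₁] [Algebra M M₁] [Algebra K₁ M₁] [IsScalarTower K M M₁] [IsScalarTower K K₁ M₁]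
    [IsGalois K K₁] [IsGalois K M₁] (ε : K₁), Tower p K M K₁ M₁ ε →
  ∀ a : 𝓞 K₁, a ≠ 0 → (p : 𝓞 K₁) ^ 3 ∣ a - 1 → OmType p K ε (a : K₁) →
    (∀ x : (M)ˣ, Sel Lg (above (TSet ιinf ιp S)) P δ (algebraMap K₁ M₁ (a : K₁)) x → Pw p x) →
  ∀ (j : M₁ →+* AlgebraicClosure K), (∀ x : M, j (algebraMap M M₁ x) = x) →
  ∀ s : AlgebraicClosure K, s ^ p = j (algebraMap K₁ M₁ (a : K₁)) → (¬ ∃ y : M₁, j y = s) →
  ∀ (N : IntermediateField K (AlgebraicClosure K)) [IsGalois K N], finrank K N = p →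
    (∀ g : AlgebraicClosure K ≃ₐ[K] AlgebraicClosure K, (∀ y ∈ N, g y = y) →
      (∀ x : M₁, g (j x) = j x) → g s = s) →
  ∀ (L : IntermediateField K (AlgebraicClosure K)) [NumberField L] [IsGalois K L], ¬ N ≤ L →
    Adm p (TSet ιinf ιp S) {v | (∃ w : HeightOneSpectrum (𝓞 M), Above w v ∧ FreeP K w) ∧
      ∃ Q : HeightOneSpectrum (𝓞 K₁), Above Q v ∧ ¬ (p : ℤ) ∣ ordv Q (a : K₁)} M χ₀ L →
  TwistAll ιinf ιp Lg S M χ₀ N L

/-- `N` is good for `(S, χ₀)`: for all extensions `L/K` not containing `N`, admissible with respect to the set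
of the primes which are ramified in `N` and split completely in `M`, the `Σ`-Leopoldt statement holds for all the
characters `χ₀ φ ψ`, `φ` a faithful character of `Gal(N/K)`, `ψ` any character of `Gal(L/K)`. -/
def TwF {p : ℕ} [Fact p.Prime] {K : Type} [Field K] [NumberField K]
    (ιinf : AlgebraicClosure K →+* ℂ) (ιp : AlgebraicClosure K →+* ℂ_[p]) (Lg : IwasawaLog p ℂ_[p])
    (S : Set (K →+* ℂ)) (M : IntermediateField K (AlgebraicClosure K)) [NumberField M]
    [IsGalois K M] (χ₀ : (M ≃ₐ[K] M) →* ℂ_[p]ˣ) (N : IntermediateField K (AlgebraicClosure K)) :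
    Prop :=
  ∀ [IsGalois K N] (L : IntermediateField K (AlgebraicClosure K)) [NumberField L] [IsGalois K L],
    ¬ N ≤ L →
    Adm p (TSet ιinf ιp S) {v | RamIn N v ∧ ∃ w : HeightOneSpectrum (𝓞 M), Above w v ∧ FreeP K w}
      M χ₀ L →
    TwistAll ιinf ιp Lg S M χ₀ N L

/-- **D_DENF** (the density theorem for families). Let `p` be a prime, `K` a number field, `M/K` a Galois
extension of degree `m` prime to `p`, not contained in `K(μ_p)`, `Q = p^f`, `f` the order of `p` modulo `m`, and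
`(S i, χ₀ i)` pairs of a `p`-ordinary CM type of `K` and a faithful character of `Gal(M/K)` which fall into at
most `n` classes (same class: the same type, and characters conjugate by a power of Frobenius). (1) Among the
cyclic extensions `N/K` of degree `p` in which the primes above `p` split, those which are not good for some
of the pairs have asymptotically an Abel mean at most `n Q/(p (Q - 1))` times that of all. (2) If
`n Q < p (Q - 1)`, a positive proportion of ALL cyclic extensions `N/K` of degree `p`, ordered by the product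
of the norms of the ramified primes, is in this family and good for all the pairs.

PROOF (from `MOM`, `D_MAP`, `D_GOL`, `D_CMP`, `D_NAT`, `D_BFN`, `D_TAM`, `D_UNR`, `RP.S_PHI`, `RD.E_TOW`, `RD.E_TOR`,
`RD.E_FRB`). The proof of `D_DEN` with the following changes. For every class `r` with an element choose one,
`i_r`; let `Φ_r`, `P_r` be given by `S_PHI` for `χ₀(i_r)(δ)`. If `c i = r` then `χ₀(i)(δ)` is a `p^l`-th power of
`χ₀(i_r)(δ)`, so `PhiData` holds for it with the same `Φ_r`, `P_r` (`E_FRB`, `l` times), and `S i = S i_r`. CLAIM: if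
`c ∈ ASet` and `SelC c` is trivial for `(S i_r, P_r)` then `N = nf c` is good for all the pairs of the class
`r`: as in `D_DEN`, with `D_GOL` instead of `D_GOO`; the set in `D_GOL` is the set of the `v` ramified in `N`
above which there is a free prime of `M`: for `v ∤ p` by `D_TAM`; for `v ∣ p` both conditions are false
(`D_UNR`, and `ord_Q(a) = 0`). (1): the sum over the `N` which are bad for some pair is at most the sum over
the (at most `n`) classes `r` of the sums over the `N` for which `SelC c ≠ 1` for the preimages `c`, and `MOM`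
applies to each of them, with `η/n`. (2): `θ = n Q/(p (Q - 1)) + η < 1` for small `η`, as in `D_DEN`. -/
def D_DENF : Prop :=
  ∀ (p : ℕ) [Fact p.Prime] (K : Type) [Field K] [NumberField K] (ιinf : AlgebraicClosure K →+* ℂ)
    (ιp : AlgebraicClosure K →+* ℂ_[p]) (Lg : IwasawaLog p ℂ_[p])
    (M : IntermediateField K (AlgebraicClosure K)) [NumberField M] [IsGalois K M],
    (finrank K M).Coprime p →
    (∀ ξ : AlgebraicClosure K, IsPrimitiveRoot ξ p → ¬ M ≤ IntermediateField.adjoin K {ξ}) →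
  ∀ Q : ℕ, Q = p ^ orderOf (p : ZMod (finrank K M)) →
  ∀ (ι : Type) [Nonempty ι] (S : ι → Set (K →+* ℂ)) (χ₀ : ι → ((M ≃ₐ[K] M) →* ℂ_[p]ˣ)) (n : ℕ)
    (c : ι → Fin n), (∀ i, IsCMType (S i)) →
    (∀ i, ∀ σ τ : K →+* AlgebraicClosure K, (∀ x, ‖ιp (σ x)‖ = ‖ιp (τ x)‖) →
      (ιinf.comp σ ∈ S i ↔ ιinf.comp τ ∈ S i)) →
    (∀ i, Function.Injective (χ₀ i)) →
    (∀ i j, c i = c j → S i = S j ∧ ∃ r : ℕ, ∀ g, χ₀ i g = χ₀ j g ^ p ^ r) →
  (∀ X : ℝ, 0 < X → Summable fun N : CycF p K ↦ Real.exp (-(cond K N.1 : ℝ) / X)) ∧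
  (∀ η : ℝ, 0 < η → ∀ᶠ X : ℝ in Filter.atTop,
    ∑' N : {N | N ∈ CycF p K ∧ ∃ i, ¬ TwF ιinf ιp Lg (S i) M (χ₀ i) N},
      Real.exp (-(cond K N.1 : ℝ) / X) ≤
    ((n : ℝ) * Q / (p * (Q - 1)) + η) * ∑' N : CycF p K, Real.exp (-(cond K N.1 : ℝ) / X)) ∧
  (∀ X : ℕ, {N | N ∈ CycN p K ∧ cond K N ≤ X}.Finite) ∧
  (n * Q < p * (Q - 1) → ∃ c : ℝ, 0 < c ∧ ∀ᶠ X : ℕ in Filter.atTop,
    0 < {N | N ∈ CycN p K ∧ cond K N ≤ X}.ncard ∧
    c * {N | N ∈ CycN p K ∧ cond K N ≤ X}.ncard ≤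
      {N | N ∈ CycF p K ∧ cond K N ≤ X ∧ ∀ i, TwF ιinf ιp Lg (S i) M (χ₀ i) N}.ncard)

end Pool.Agent.Helper77.PPL
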