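import Pool.Agent.Helper50.PP.DSPL
import Pool.Agent.Helper58.PP.DTAM

/-!
# Project PP (MP_fc6b1e_nt): split primes are not ramified
-/

namespace Pool.Agent.Helper77.PPL

open NumberField Polynomial Module IsDedekindDomain
open Pool.Agent.Helper51.RP Pool.Agent.Helper11.PP
open Pool.Agent.Helper40.RS (bel efg)
open Pool.Agent.Helper58.PP (ee map_le_iff)

theorem d_unr : D_UNR := by
  intro p hpF K _ _ N hN v hs
  rintro ⟨V, hV, hle⟩
  have hp : p.Prime := hpF.out
  obtain ⟨hd, hg⟩ := hN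
  have hfN : FiniteDimensional K N := FiniteDimensional.of_finrank_pos (by rw [hd]; exact hp.pos)
  have hnf : NumberField N := NumberField.of_module_finite K N
  have hb : bel K V = v := by
    apply HeightOneSpectrum.ext
    exact hV
  subst hb
  have h1 := efg (K := K) V
  have h2 : {V' : HeightOneSpectrum (𝓞 N) | Ab V' (bel K V)}.ncard =
      ((bel K V).asIdeal.primesOver (𝓞 N)).ncard := by
    rw [← Set.ncard_image_of_injective _ (f := HeightOneSpectrum.asIdeal)
      (fun _ _ h => HeightOneSpectrum.ext h)]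
    congr 1
    ext Q
    constructor
    · rintro ⟨W, hW, rfl⟩
      exact ⟨W.isPrime, ⟨hW.symm⟩⟩
    · rintro ⟨hQ, hQ2⟩
      have hQ0 : Q ≠ ⊥ := Ideal.ne_bot_of_liesOver_of_ne_bot (bel K V).ne_bot Q
      exact ⟨⟨Q, hQ, hQ0⟩, hQ2.over.symm, rfl⟩
  have h3 : ((bel K V).asIdeal.primesOver (𝓞 N)).ncard = p := by rw [← h2]; exact hs
  rw [h3, hd] at h1
  have h4 : V.asIdeal.ramificationIdx (𝓞 K) * V.asIdeal.inertiaDeg (𝓞 K) = 1 :=
    Nat.eq_of_mul_eq_mul_left hp.pos (by rw [h1, mul_one])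
  have h5 : V.asIdeal.ramificationIdx (𝓞 K) = 1 := Nat.eq_one_of_mul_eq_one_right h4
  have h6 := (map_le_iff K V).1 hle
  rw [ee, Ideal.ramificationIdx'_eq_ramificationIdx _ _ (bel K V).ne_bot, h5] at h6
  omega

end Pool.Agent.Helper77.PPL
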