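import Pool.Agent.Helper77.PPL.DENF
import Pool.Agent.Helper77.PPL.DUNR
import Pool.Agent.Helper77.PPS.Asm
import Pool.Agent.Helper77.PPO.HYPN
import Pool.Agent.Helper77.RL.Asm
import Pool.Agent.Helper11.PP.MOM
import Pool.Agent.Helper17.PP.AsmC
import Pool.Agent.Helper30.PPO.OASM
import Pool.Agent.Helper48.PPO.OSUB
import Pool.Agent.Helper86.PPO.OTRV
import Pool.Agent.Helper94.PPO.OGOL
import Pool.Agent.Helper32.PPO.ODENF
import Pool.Agent.Helper17.PP0.Asm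
import Pool.Agent.Helper51.PP.Asm
import Pool.Agent.Helper63.PP.DSYS
import Pool.Agent.Helper63.PP.DNLS
import Pool.Agent.Helper44.PP.DABS
import Pool.Agent.Helper85.PP.DCND
import Pool.Agent.Helper15.PP.DTAU
import Pool.Agent.Helper16.PP.BBLH
import Pool.Agent.Helper16.PP.PUPR
import Pool.Agent.Helper19.PP.BLOG
import Pool.Agent.Helper30.PP.BNRM
import Pool.Agent.Helper30.PP.PFUN
import Pool.Agent.Helper32.PP.BNOR
import Pool.Agent.Helper35.PP.BBLU
import Pool.Agent.Helper35.PP.BUPH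
import Pool.Agent.Helper42.PP.SEL
import Pool.Agent.Helper42.PP.NZY
import Pool.Agent.Helper5.PP.BTRS
import Pool.Agent.Helper56.PP.BCRT
import Pool.Agent.Helper64.PP.PEXT
import Pool.Agent.Helper70.PP.PEXB
import Pool.Agent.Helper74.PP.BKUE
import Pool.Agent.Helper74.PP.PLFI
import Pool.Agent.Helper76.PP.UPV
import Pool.Agent.Helper14.PP.BKUM
import Pool.Agent.Helper14.PP.BPRC
import Pool.Agent.Helper46.PP.PSCH
import Pool.Agent.Helper12.PP.BKAP
import Pool.Agent.Helper22.PP.POMG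
import Pool.Agent.Helper53.PP.BTRN
import Pool.Agent.Helper53.PP.PBAS
import Pool.Agent.Helper58.PP.PDEW
import Pool.Agent.Helper59.PP.PLAB
import Pool.Agent.Helper62.PP.PDEC
import Pool.Agent.Helper79.PP.PVIS
import Pool.Agent.Helper8.PP.PSLG
import Pool.Agent.Helper83.PP.BFRE
import Pool.Agent.Helper86.PP.PWSP
import Pool.Agent.Helper91.PP.PSEP
import Pool.Agent.Helper94.PP.BIDN
import Pool.Agent.Helper96.PP.BCHR
import Pool.Agent.Helper42.PP1.BSM
import Pool.Agent.Helper42.PP1.SMW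
import Pool.Agent.Helper42.PP1.KUM
import Pool.Agent.Helper42.PP1.BLU
import Pool.Agent.Helper42.PP1.LAB
import Pool.Agent.Helper76.PP.WUPV
import Pool.Agent.Helper76.PP.NTV1
import Pool.Agent.Helper15.PPL.DDAT
import Pool.Agent.Helper98.PPL.DLPN
import Pool.Agent.Helper82.PPL.DGOL
import Pool.Agent.Helper8.PP.DEXI
import Pool.Agent.Helper46.PP.DUNQ
import Pool.Agent.Helper11.PP.DLIN
import Pool.Agent.Helper74.PP.DCNV
import Pool.Agent.Helper14.PP.DNIC
import Pool.Agent.Helper50.PP.DSPL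
import Pool.Agent.Helper58.PP.DTAM
import Pool.Agent.Helper22.PP.DPRD
import Pool.Agent.Helper99.PP.DIDX
import Pool.Agent.Helper62.PP.DBFN
import Pool.Agent.Helper95.PP.DCMP
import Pool.Agent.Helper64.PP.DNAT
import Pool.Agent.Helper22.RP.PHI
import Pool.Agent.Helper20.RD.FRB
import Pool.Agent.Helper72.RD.TOR
import Pool.Agent.Helper14.RD.TOW
import Pool.Agent.Helper40.RD.TRF
import Pool.Agent.Helper8.RD.SHF

/-!
# Project PP (MP_fc6b1e_nt): assembly of the density theorem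
-/

namespace Pool.Agent.Helper77.PPL

open Pool.Agent.Helper42.PP Pool.Agent.Helper76.PP Pool.Agent.Helper11.PP

/-! Part B. -/

theorem a_fun : P_FUN := Pool.Agent.Helper30.PP.p_fun
theorem a_upr : P_UPR := Pool.Agent.Helper16.PP.p_upr
theorem a_vis : P_VIS := Pool.Agent.Helper79.PP.p_vis
theorem a_omg : P_OMG := Pool.Agent.Helper22.PP.p_omg
theorem a_lfi : P_LFI := Pool.Agent.Helper74.PP.p_lfi
theorem a_sep : P_SEP := Pool.Agent.Helper91.PP.p_sep
theorem a_nzy : P_NZY := p_nzy a_fun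
theorem a_dew : P_DEW := Pool.Agent.Helper58.PP.p_dew a_omg a_nzy a_upr
theorem a_dec : P_DEC := Pool.Agent.Helper62.PP.p_dec a_fun a_nzy a_upr
theorem a_lab : P_LAB := Pool.Agent.Helper59.PP.p_lab a_omg a_nzy a_dew a_upr a_lfi
theorem a_sel : P_SEL :=
  p_sel a_fun a_nzy a_omg a_vis a_dec a_dew a_lab Pool.Agent.Helper8.PP.p_slg
theorem a_exb : P_EXB :=
  Pool.Agent.Helper70.PP.p_exb (Pool.Agent.Helper46.PP.p_sch a_lfi) a_upr a_vis a_lfi a_sep
    Pool.Agent.Helper53.PP.p_bas (Pool.Agent.Helper86.PP.p_wsp a_omg) a_fun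
theorem a_ext : P_EXT := Pool.Agent.Helper64.PP.p_ext a_sep a_fun a_upr a_lfi a_omg
theorem a_idn : B_IDN := Pool.Agent.Helper94.PP.b_idn
theorem a_chr : B_CHR := Pool.Agent.Helper96.PP.b_chr
theorem a_crt : B_CRT := Pool.Agent.Helper56.PP.b_crt a_upr a_idn
theorem a_nor : B_NOR := Pool.Agent.Helper32.PP.b_nor a_upr
theorem a_log : B_LOG := Pool.Agent.Helper19.PP.b_log a_vis
theorem a_nrm : B_NRM := Pool.Agent.Helper30.PP.b_nrm a_fun a_omg a_upr
theorem a_kap : B_KAP := Pool.Agent.Helper12.PP.b_kap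
theorem a_upv : B_UPV :=
  Pool.Agent.Helper76.PP.b_upv a_chr a_idn a_kap a_crt a_nor a_log a_nrm a_vis
theorem a_uph : B_UPH :=
  Pool.Agent.Helper35.PP.b_uph a_chr a_idn a_crt a_log a_nrm a_upr a_vis
theorem a_blu : B_BLU :=
  Pool.Agent.Helper35.PP.b_blu a_upv Pool.Agent.Helper14.PP.b_prc a_idn a_kap a_vis a_upr
theorem a_blh : B_BLH :=
  Pool.Agent.Helper16.PP.b_blh a_uph Pool.Agent.Helper14.PP.b_prc a_idn a_kap a_vis a_upr
theorem a_kue : B_KUE :=
  Pool.Agent.Helper74.PP.b_kue a_fun a_upr a_nor a_log a_nrm Pool.Agent.Helper14.RD.e_tow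
theorem a_trs : B_TRS := Pool.Agent.Helper5.PP.b_trs Pool.Agent.Helper83.PP.b_fre a_upr
theorem a_kum : B_KUM :=
  Pool.Agent.Helper14.PP.b_kum a_kue a_trs Pool.Agent.Helper53.PP.b_trn a_upr
theorem a_sm : B_SM := Pool.Agent.Helper42.PP1.b_sm Pool.Agent.Helper77.PPS.a1_pri

/-- The analytic hypotheses of the moment theorem. -/
theorem hyp : HYP :=
  Pool.Agent.Helper77.PPS.hyp Pool.Agent.Helper77.PPS.n_hyp Pool.Agent.Helper77.PPS.n_low
    Pool.Agent.Helper77.PPS.h_g Pool.Agent.Helper51.PP.bl1 Pool.Agent.Helper51.PP.bl2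
    Pool.Agent.Helper77.PPS.a1_unb a_blu a_blh a_sm a_kum a_kap a_lab
    Pool.Agent.Helper90.LE.l_cyc

/-- The moment theorem. -/
theorem mom : MOM :=
  Pool.Agent.Helper11.PP.mom hyp a_exb a_ext a_lab a_sel Pool.Agent.Helper14.RD.e_tow
    Pool.Agent.Helper40.RD.e_trf Pool.Agent.Helper63.PP.d_nls
    (Pool.Agent.Helper15.PP.d_tau a_lfi) Pool.Agent.Helper85.PP.d_cnd
    (Pool.Agent.Helper63.PP.d_sys Pool.Agent.Helper17.PP.mt) Pool.Agent.Helper44.PP.d_abs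

/-! The case `χ₀ = 1`. -/

theorem hypN : Pool.Agent.Helper77.PPO.HYPN :=
  Pool.Agent.Helper77.PPO.hypN Pool.Agent.Helper77.PPS.n_lab Pool.Agent.Helper77.PPS.h_che
    Pool.Agent.Helper77.PPS.h_ht Pool.Agent.Helper77.PPS.h_mer Pool.Agent.Helper77.PPS.h_g
    Pool.Agent.Helper77.PPS.p_lab Pool.Agent.Helper77.PPS.n_chb Pool.Agent.Helper77.PPS.n_chs
    Pool.Agent.Helper77.PPS.n_spl Pool.Agent.Helper51.PP.bl1 Pool.Agent.Helper77.PPS.a1_unb
    (Pool.Agent.Helper42.PP1.w_blu Pool.Agent.Helper76.PP.w_upv)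
    (Pool.Agent.Helper42.PP1.w_sm Pool.Agent.Helper77.PPS.a1_pri) Pool.Agent.Helper42.PP1.w_kum
    Pool.Agent.Helper42.PP1.w_lab

theorem hyp0 : Pool.Agent.Helper77.PPO.HYP0 :=
  Pool.Agent.Helper77.PPO.hyp0 hypN Pool.Agent.Helper90.LE.l_cyc (by
    intro p _ K K₁ _ _ _ _ _ ε hC hμ
    have := hC.gal
    have h1 := Pool.Agent.Helper90.LE.l_cyc p K K₁ ε hC
    refine Pool.Agent.Helper76.PP.ntv_one p K K₁ ε hC.prim hC.gen ?_
    have h2 : 0 < Module.finrank K K₁ := Module.finrank_pos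
    rcases Nat.lt_or_ge 1 (Module.finrank K K₁) with h | h
    · exact h
    · exact absurd (h1.2.2.1.1 (by omega)) hμ)

theorem d_sys0 : Pool.Agent.Helper77.PPO.D_SYS0 :=
  Pool.Agent.Helper77.PPO.d_sys0 Pool.Agent.Helper17.PP0.mt₀

/-! Part D. -/

theorem d_map : D_MAP :=
  Pool.Agent.Helper79.PP.d_map Pool.Agent.Helper8.PP.d_exi Pool.Agent.Helper46.PP.d_unq
    Pool.Agent.Helper11.PP.d_lin Pool.Agent.Helper74.PP.d_cnv Pool.Agent.Helper14.PP.d_nic
    Pool.Agent.Helper50.PP.d_spl d_unr Pool.Agent.Helper58.PP.d_tam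

theorem d_bfn : D_BFN :=
  Pool.Agent.Helper62.PP.d_bfn Pool.Agent.Helper74.PP.d_cnv Pool.Agent.Helper46.PP.d_unq
    Pool.Agent.Helper58.PP.d_tam Pool.Agent.Helper22.PP.d_prd

theorem d_idx : D_IDX :=
  Pool.Agent.Helper99.PP.d_idx Pool.Agent.Helper63.PP.d_nls (Pool.Agent.Helper15.PP.d_tau a_lfi)

theorem d_cmp : D_CMP :=
  Pool.Agent.Helper95.PP.d_cmp d_map Pool.Agent.Helper22.PP.d_prd d_idx d_bfn

theorem d_dat : D_DAT :=
  Pool.Agent.Helper15.PPL.d_dat Pool.Agent.Helper98.PPL.d_lpn a_omg a_vis a_upr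
    Pool.Agent.Helper40.RD.e_trf Pool.Agent.Helper14.RD.e_tow Pool.Agent.Helper8.RD.e_shf
    Pool.Agent.Helper11.RP.s_nsp

theorem d_gol : D_GOL :=
  Pool.Agent.Helper82.PPL.d_gol d_dat Pool.Agent.Helper77.RL.l_goo Pool.Agent.Helper14.RD.e_tow
    Pool.Agent.Helper40.RD.e_trf a_upr

theorem o_asm : Pool.Agent.Helper77.PPO.O_ASM :=
  Pool.Agent.Helper30.PPO.o_asm d_cmp Pool.Agent.Helper64.PP.d_nat d_bfn

theorem o_gol : Pool.Agent.Helper77.PPO.O_GOL :=
  Pool.Agent.Helper94.PPO.o_gol (Pool.Agent.Helper86.PPO.o_trv Pool.Agent.Helper48.PPO.o_sub)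

/-- The density theorem for families, `M` not contained in `K(μ_p)`. -/
theorem a_denf : D_DENF :=
  d_denf mom d_map d_gol o_asm Pool.Agent.Helper58.PP.d_tam d_unr Pool.Agent.Helper22.RP.s_phi
    Pool.Agent.Helper14.RD.e_tow Pool.Agent.Helper72.RD.e_tor Pool.Agent.Helper20.RD.e_frb

/-- The density theorem for families, `M = K`, from the moment theorem `O_MOM`. -/
theorem o_denf' (h : Pool.Agent.Helper77.PPO.O_MOM) : Pool.Agent.Helper77.PPO.O_DENF :=
  Pool.Agent.Helper32.PPO.o_denf h o_asm o_gol d_map Pool.Agent.Helper58.PP.d_tam d_unr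

end Pool.Agent.Helper77.PPL
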