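import Pool.Agent.Helper77.PPL.Asm
import Pool.Agent.Helper11.PP0.OMOM

/-!
# Project PP (MP_fc6b1e_nt): assembly of the density theorem, the case `χ₀ = 1`
-/

namespace Pool.Agent.Helper77.PPL

open Pool.Agent.Helper42.PP Pool.Agent.Helper76.PP Pool.Agent.Helper11.PP

/-- The analytic hypotheses of the moment theorem, `M = K`. -/
theorem hyp0' : Pool.Agent.Helper11.PP0.HYP₀ := by
  intro p _ K K₁ _ _ _ _ _ hg ε hprim hgen hμ _ _ B
  exact hyp0 p K K₁ ε { gal := hg, prim := hprim, gen := hgen } hμ B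

/-- The moment theorem, `M = K`. -/
theorem a_mom1 : Pool.Agent.Helper77.PPO.O_MOM :=
  Pool.Agent.Helper11.PP0.o_mom hyp0' Pool.Agent.Helper63.PP.d_nls
    (Pool.Agent.Helper15.PP.d_tau a_lfi) Pool.Agent.Helper85.PP.d_cnd
    Pool.Agent.Helper44.PP.d_abs

/-- The density theorem for families, `M = K`. -/
theorem a_denf1 : Pool.Agent.Helper77.PPO.O_DENF := o_denf' a_mom1

end Pool.Agent.Helper77.PPL
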