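import Pool.Agent.Helper77.PPO.Goals2
import Pool.Agent.Helper79.PP.DMAP
import Pool.Agent.Helper11.PP.Core
import Pool.Agent.Helper74.RD.RSQ
import Pool.Agent.Helper35.RD.RSP

/-!
# Project PP (MP_fc6b1e_nt): the density theorem for families
-/

namespace Pool.Agent.Helper77.PPL

open NumberField Polynomial Module IsDedekindDomain Pool.Agent.Helper51.SigLeo
open Pool.Agent.Helper51.RP Pool.Agent.Helper42.RD Pool.Agent.Helper77.RL Pool.Agent.Helper11.PP
open Pool.Agent.Helper77.PPO (O_ASM)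
open Pool.Agent.Helper79.PP (clp_eq clp_eq_one nice_val)

/-- An element which is a `p`-th power in an extension of degree prime to `p` is a `p`-th power. -/
theorem pw_desc {p : ℕ} (hp : 0 < p) {F E : Type} [Field F] [Field E] [Algebra F E]
    [FiniteDimensional F E]
    (hcop : (finrank F E).Coprime p) (a : Fˣ) (y : E) (h : y ^ p = algebraMap F E (a : F)) :
    Pw p a := by
  have h1 : Algebra.norm F y ^ p = (a : F) ^ finrank F E := by
    rw [← map_pow, h, Algebra.norm_algebraMap]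
  have hy0 : Algebra.norm F y ≠ 0 := by
    intro h0
    rw [h0, zero_pow hp.ne'] at h1
    exact (pow_ne_zero _ a.ne_zero) h1.symm
  set N : Fˣ := Units.mk0 _ hy0 with hN
  have h2 : N ^ p = a ^ finrank F E := by
    apply Units.ext
    rw [Units.val_pow_eq_pow_val, Units.val_pow_eq_pow_val, hN, Units.val_mk0, h1]
  refine ⟨N ^ (Nat.gcdA (finrank F E) p) * a ^ (Nat.gcdB (finrank F E) p), ?_⟩
  have h3 := Nat.gcd_eq_gcd_ab (finrank F E) p
  rw [hcop, Nat.cast_one] at h3
  have h4 : (N ^ (Nat.gcdA (finrank F E) p)) ^ p = a ^ ((finrank F E : ℤ) * Nat.gcdA (finrank F E) p) := by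
    rw [zpow_mul, zpow_natCast, ← h2, ← zpow_natCast, ← zpow_natCast, ← zpow_mul, ← zpow_mul,
      mul_comm]
  have h5 : (a ^ (Nat.gcdB (finrank F E) p)) ^ p = a ^ ((p : ℤ) * Nat.gcdB (finrank F E) p) := by
    rw [← zpow_natCast, ← zpow_mul, mul_comm]
  rw [mul_pow, h4, h5, ← zpow_add, ← h3, zpow_one]

/-- The degree of `P`. -/
theorem phi_deg {p : ℕ} [Fact p.Prime] {k : Type} [NormedField k] [NormedAlgebra ℚ_[p] k]
    {m : ℕ} {ζ : k} {Φ : ℤ_[p][X]} {P : (ZMod p)[X]} (h : PhiData p m ζ Φ P) :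
    P.natDegree = orderOf (p : ZMod m) := by
  have hm : 0 < m := lt_trans one_pos h.one_lt
  have hprime : Prime P := h.irr.prime
  have h1 : P ∣ ∏ d ∈ m.divisors, cyclotomic d (ZMod p) := by
    rw [prod_cyclotomic_eq_X_pow_sub_one hm]
    exact h.dvdP
  obtain ⟨d, hd, hPd⟩ := hprime.exists_mem_finset_dvd h1
  have hd1 : d ∣ m := Nat.dvd_of_mem_divisors hd
  have hd0 : 0 < d := Nat.pos_of_dvd_of_pos hd1 hm
  have hdm : d = m := by
    by_contra hne
    have hlt : d < m := lt_of_le_of_ne (Nat.le_of_dvd hm hd1) hne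
    have h2 := h.cop d hd0 hlt hd1
    have h3 : P ∣ X ^ d - 1 := hPd.trans (cyclotomic.dvd_X_pow_sub_one d (ZMod p))
    exact h.irr.not_isUnit (h2.isUnit_of_dvd' dvd_rfl h3)
  subst hdm
  have hcop : p.Coprime d := h.copm.symm
  have h4 := natDegree_of_dvd_cyclotomic_of_irreducible (K := ZMod p) (p := p) (f := 1) (n := d)
    (by simp) hcop hPd h.irr
  rw [h4, ← orderOf_units]
  simp

/-- The tower `K ⊆ M, K(ξ) ⊆ M(ξ)`. -/
theorem tower_of (p : ℕ) [hpF : Fact p.Prime] (K : Type) [Field K] [NumberField K]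
    (M : IntermediateField K (AlgebraicClosure K)) [FiniteDimensional K M]
    (hcop : (finrank K M).Coprime p) (ε : AlgebraicClosure K)
    (hε : IsPrimitiveRoot ε p) (hnl : ¬ M ≤ IntermediateField.adjoin K {ε}) :
    ∃ (K₁ M₁ : IntermediateField K (AlgebraicClosure K)) (_ : NumberField K₁) (_ : NumberField M₁)
      (_ : Algebra M M₁) (_ : Algebra K₁ M₁) (_ : IsScalarTower K M M₁) (_ : IsScalarTower K K₁ M₁)
      (_ : IsGalois K K₁) (_ : Normal K M → IsGalois K M₁) (ε₁ : K₁), Tower p K M K₁ M₁ ε₁ ∧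
      (∀ x : M, ((algebraMap M M₁ x : M₁) : AlgebraicClosure K) = x) ∧
      (∀ x : K₁, ((algebraMap K₁ M₁ x : M₁) : AlgebraicClosure K) = x) := by
  have hp : p.Prime := hpF.out
  have hpne : NeZero p := ⟨hp.ne_zero⟩
  set K₁ : IntermediateField K (AlgebraicClosure K) := IntermediateField.adjoin K {ε} with hK₁
  have hεmem : ε ∈ K₁ := IntermediateField.mem_adjoin_simple_self K ε
  have hK₁fin : FiniteDimensional K K₁ :=
    IntermediateField.adjoin.finiteDimensional (Algebra.IsIntegral.isIntegral ε)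
  have hcyc : IsCyclotomicExtension {p} K K₁ :=
    hε.intermediateField_adjoin_isCyclotomicExtension (K := K)
  have hK₁gal : IsGalois K K₁ := IsCyclotomicExtension.isGalois {p} K K₁
  set M₁ : IntermediateField K (AlgebraicClosure K) := M ⊔ K₁ with hM₁
  have hMM₁ : M ≤ M₁ := le_sup_left
  have hKM₁ : K₁ ≤ M₁ := le_sup_right
  have hM₁fin : FiniteDimensional K M₁ := IntermediateField.finiteDimensional_sup M K₁
  have hnfK₁ : NumberField K₁ := NumberField.of_module_finite K K₁
  have hnfM₁ : NumberField M₁ := NumberField.of_module_finite K M₁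
  let A1 : Algebra M M₁ := (IntermediateField.inclusion hMM₁).toRingHom.toAlgebra
  let A2 : Algebra K₁ M₁ := (IntermediateField.inclusion hKM₁).toRingHom.toAlgebra
  have ht1 : IsScalarTower K M M₁ := IsScalarTower.of_algebraMap_eq fun x => rfl
  have ht2 : IsScalarTower K K₁ M₁ := IsScalarTower.of_algebraMap_eq fun x => rfl
  set ε₁ : K₁ := ⟨ε, hεmem⟩ with hε₁
  have hε₁p : IsPrimitiveRoot ε₁ p :=
    IsPrimitiveRoot.of_map_of_injective (f := K₁.val) hε K₁.val.injective
  refine ⟨K₁, M₁, hnfK₁, hnfM₁, A1, A2, ht1, ht2, hK₁gal, ?_, ε₁, ?_, fun x => rfl, fun x => rfl⟩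
  · intro hN
    have hM₁norm : Normal K M₁ := by rw [hM₁]; infer_instance
    exact ⟨⟩
  · exact
      { prim := hε₁p
        gen := by
          intro σ hσ
          apply AlgEquiv.coe_toAlgHom_injective
          apply IntermediateField.adjoin_algHom_ext
          intro x hx
          obtain rfl := Set.mem_singleton_iff.1 hx
          exact hσ
        cop := hcop
        lin := by
          intro g g1 g2
          apply Pool.Agent.Helper35.RD.eq_one_of_sup M K₁ g
          · intro x hx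
            have : x = algebraMap M M₁ ⟨x, hx⟩ := rfl
            rw [this, g1]
          · intro x hx
            have : x = algebraMap K₁ M₁ ⟨x, hx⟩ := rfl
            rw [this, g2]
        nt := by
          have hpos : 0 < finrank K₁ M₁ := by
            have : FiniteDimensional K₁ M₁ := FiniteDimensional.right K K₁ M₁
            exact Module.finrank_pos
          by_contra hle
          have h1 : finrank K₁ M₁ = 1 := by omega
          have h2 := Module.finrank_mul_finrank K K₁ M₁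
          rw [h1, mul_one] at h2
          have h3 : K₁ = M₁ := IntermediateField.eq_of_le_of_finrank_eq hKM₁ h2
          apply hnl
          rw [h3]
          exact hMM₁ }

theorem d_denf (h1 : MOM) (h2 : D_MAP) (h3 : D_GOL) (h4 : O_ASM) (h5 : D_TAM) (h6 : D_UNR)
    (h7 : S_PHI) (h8 : E_TOW) (h9 : E_TOR) (h10 : Pool.Agent.Helper76.RD.E_FRB) : D_DENF := by
  classical
  intro p hpF K _ _ ιinf ιp Lg M _ _ hcop hnl Q hQ ι hι S χ₀ n c hCM hord hinj hc
  have hp : p.Prime := hpF.out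
  have hchar : CharZero (AlgebraicClosure K) :=
    charZero_of_injective_algebraMap (algebraMap K (AlgebraicClosure K)).injective
  obtain ⟨i₀⟩ := hι
  have htc : IsTotallyComplex K := Pool.Agent.Helper35.RD.totallyComplex_of_cm (hCM i₀)
  have hMfin : FiniteDimensional K M := Module.Finite.of_restrictScalars_finite ℚ K M
  have hcl : ∀ i, PlaceClosed (TSet ιinf ιp (S i)) := fun i =>
    Pool.Agent.Helper35.RD.tset_closed ιinf ιp (S i) (hord i)
  have hcard : ∀ i, finrank ℚ K = 2 * (TSet ιinf ιp (S i)).ncard := fun i => by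
    rw [Pool.Agent.Helper35.RD.tset_ncard, Pool.Agent.Helper35.RD.two_mul_ncard_cm (hCM i)]
  have hinj' : ∀ i, Function.Injective ((Units.coeHom ℂ_[p]).comp (χ₀ i)) := by
    intro i x y hxy
    apply hinj i
    exact Units.ext hxy
  have hcyc : IsCyclic (M ≃ₐ[K] M) := isCyclic_of_injective_ringHom _ (hinj' i₀)
  obtain ⟨δ, hδ⟩ := IsCyclic.exists_generator (α := (M ≃ₐ[K] M))
  have horder : orderOf δ = finrank K M := by
    rw [orderOf_eq_card_of_forall_mem_zpowers hδ, IsGalois.card_aut_eq_finrank]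
  have hm0 : 0 < finrank K M := finrank_pos
  have hprim : ∀ i, IsPrimitiveRoot ((χ₀ i δ : ℂ_[p]ˣ) : ℂ_[p]) (finrank K M) := by
    intro i
    have h4 : orderOf ((χ₀ i δ : ℂ_[p]ˣ) : ℂ_[p]) = finrank K M := by
      rw [← horder]
      exact orderOf_injective ((Units.coeHom ℂ_[p]).comp (χ₀ i)) (hinj' i) δ
    rw [← h4]
    exact IsPrimitiveRoot.orderOf _
  have hpne : NeZero p := ⟨hp.ne_zero⟩
  obtain ⟨ε, hε⟩ := HasEnoughRootsOfUnity.exists_primitiveRoot (AlgebraicClosure K) p
  have hlt : 1 < finrank K M := by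
    by_contra hle
    have h9 : finrank K M = 1 := by omega
    have h8 : M = ⊥ := IntermediateField.finrank_eq_one_iff.1 h9
    apply hnl ε hε
    rw [h8]
    exact bot_le
  -- the representatives of the classes
  set r : Fin n → ι := fun t => if h : ∃ i, c i = t then h.choose else i₀ with hr
  have hrc : ∀ i, c (r (c i)) = c i := by
    intro i
    have h : ∃ i', c i' = c i := ⟨i, rfl⟩
    rw [hr]
    simp only [dif_pos h]
    exact h.choose_spec
  choose Φ P hPhi using fun t : Fin n =>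
    h7 p ℂ_[p] (finrank K M) ((χ₀ (r t) δ : ℂ_[p]ˣ) : ℂ_[p]) hcop hlt (hprim (r t))
  have hδm : δ ^ finrank K M = 1 := by rw [← horder]; exact pow_orderOf_eq_one δ
  have hTor : ∀ t, TorOK (P t) δ := by
    intro t
    refine h9 p ℂ_[p] (finrank K M) _ (Φ t) (P t) (hPhi t) K M δ hδm ?_
    intro ξ hξ
    refine Pool.Agent.Helper74.RD.exists_fix M δ hδ (finrank K M) horder hm0 ξ (hnl _ ?_)
    exact hξ.map_of_injective (f := M.val) M.val.injective
  have hdeg : ∀ t, p ^ (P t).natDegree = Q := by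
    intro t
    rw [hQ, phi_deg (hPhi t)]
  -- the tower
  obtain ⟨K₁, M₁, _, _, _, _, _, _, hgK, hgM, ε₁, hT, hval, hval'⟩ :=
    tower_of p K M hcop ε hε (hnl ε hε)
  have hMn : Normal K M := inferInstance
  have hgM' : IsGalois K M₁ := hgM hMn
  obtain ⟨-, -, -, hc2, -, -⟩ := h8 p K M K₁ M₁ ε₁ hT
  have hC : Pool.Agent.Helper11.LE.Cyc p K K₁ ε₁ := ⟨hT.prim, hgK, hT.gen⟩
  have hj : ∀ x : K, (K₁.val : K₁ →+* AlgebraicClosure K) (algebraMap K K₁ x) =
    algebraMap K (AlgebraicClosure K) x := fun x => rfl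
  obtain ⟨nf, n1, n2, n3, n4⟩ := h2 p K K₁ ε₁ hC (K₁.val : K₁ →+* AlgebraicClosure K) hj
  -- the moment theorem
  have hmom := fun t : Fin n => h1 p Lg K M K₁ M₁ ε₁ hT (finrank K M) δ _ (Φ t) (P t) (hPhi t)
    horder rfl (hTor t) (TSet ιinf ιp (S (r t))) (hcl (r t)) (hcard (r t))
  set Bd : Fin n → Set (ClP p K₁) := fun t => {c' | (∃ i, c i = t) ∧
    ∃ x ∈ SelC (M₁ := M₁) Lg (above (TSet ιinf ιp (S (r t))) : Set (M →+* ℂ_[p])) (P t) δ c',
      x ≠ 1} with hBd
  set G : Set (IntermediateField K (AlgebraicClosure K)) :=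
    {N | ∀ i, TwF ιinf ιp Lg (S i) M (χ₀ i) N} with hG
  have hQ1 : (1 : ℝ) < Q := by
    rw [← hdeg (c i₀)]
    push_cast
    refine one_lt_pow₀ (by exact_mod_cast hp.one_lt) ?_
    exact (hPhi (c i₀)).irr.natDegree_pos.ne'
  have hp0 : (0 : ℝ) < p := by exact_mod_cast hp.pos
  have hθ : (0 : ℝ) ≤ (Q : ℝ) / (p * (Q - 1)) :=
    div_nonneg (by linarith) (mul_nonneg hp0.le (by linarith))
  -- the claim
  have hclaim : ∀ c' ∈ ASet p K ε₁, nf c' ∉ G → ∃ t, c' ∈ Bd t := by
    intro c' hc' hN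
    obtain ⟨hc1, a₀, ha₀, hom, hni⟩ := hc'
    rw [hG, Set.mem_ofPred_eq] at hN
    push Not at hN
    obtain ⟨i, hi⟩ := hN
    refine ⟨c i, ?_⟩
    by_contra hcon
    apply hi
    have hcB : c' ∈ BSet p K ε₁ := ⟨hc1, a₀, ha₀, hom⟩
    obtain ⟨hNc, hgen⟩ := n1 c' hcB
    have hNF : nf c' ∈ CycF p K := (n3 c' hcB).1 ⟨hc1, a₀, ha₀, hom, hni⟩
    obtain ⟨b, y, hb3, hby⟩ := hni
    have hb0 : (b : K₁) ≠ 0 := by
      rw [hby]
      exact mul_ne_zero a₀.ne_zero (pow_ne_zero _ y.ne_zero)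
    set bu : K₁ˣ := a₀ * y ^ p with hbu
    have hbu' : (bu : K₁) = (b : K₁) := by
      rw [hbu, Units.val_mul, Units.val_pow_eq_pow_val, hby]
    have hcb : clp p bu = c' := by
      rw [← ha₀]
      exact (clp_eq.2 ⟨y, rfl⟩).symm
    have hbom : OmType p K ε₁ (b : K₁) := by
      rw [← hbu']
      exact om_mul_pow hom y
    have hbp : ¬ Pw p bu := by
      rw [← clp_eq_one, hcb]
      exact hc1
    have hbni : NiceU p bu := ⟨b, 1, hb3, by rw [hbu']; simp⟩
    obtain ⟨hS, r', hr'⟩ := hc i (r (c i)) (hrc i).symm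
    have hPhi' : PhiData p (finrank K M) ((χ₀ i δ : ℂ_[p]ˣ) : ℂ_[p]) (Φ (c i)) (P (c i)) := by
      rw [hr' δ, Units.val_pow_eq_pow_val]
      exact Pool.Agent.Helper74.RD.phi_pow h10 (hPhi (c i)) r'
    intro _ L _ _ hNL hAdm
    have hsel : ∀ x : (M)ˣ, Sel Lg (above (TSet ιinf ιp (S i))) (P (c i)) δ
        (algebraMap K₁ M₁ (b : K₁)) x → Pw p x := by
      intro x hx
      by_contra hxp
      apply hcon
      refine ⟨⟨i, rfl⟩, clp p x, ⟨x, bu, rfl, hcb, ?_⟩, fun h => hxp (clp_eq_one.1 h)⟩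
      rw [hbu', ← hS]
      exact hx
    obtain ⟨s, hs⟩ := IsAlgClosed.exists_pow_nat_eq ((b : K₁) : AlgebraicClosure K) (n := p) hp.pos
    have hset : {v : HeightOneSpectrum (𝓞 K) | RamIn (nf c') v ∧
        ∃ w : HeightOneSpectrum (𝓞 M), Above w v ∧ FreeP K w} =
        {v | (∃ w : HeightOneSpectrum (𝓞 M), Above w v ∧ FreeP K w) ∧
      ∃ Q : HeightOneSpectrum (𝓞 K₁), Above Q v ∧ ¬ (p : ℤ) ∣ ordv Q (b : K₁)} := by
      ext v
      simp only [Set.mem_ofPred_eq]
      rw [and_comm]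
      refine and_congr_right fun _ => ?_
      by_cases hv : (p : 𝓞 K) ∈ v.asIdeal
      · refine iff_of_false ?_ ?_
        · exact h6 p K (nf c') hNc v (hNF.2.2 v hv)
        · rintro ⟨Q', hQ', hQ2⟩
          apply hQ2
          rw [← hbu']
          refine nice_val hbni Q' ?_
          have h9 : (p : 𝓞 K) ∈ Q'.asIdeal.comap (algebraMap (𝓞 K) (𝓞 K₁)) := by
            rw [show Q'.asIdeal.comap (algebraMap (𝓞 K) (𝓞 K₁)) = v.asIdeal from hQ']
            exact hv
          rw [Ideal.mem_comap, map_natCast] at h9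
          exact h9
      · rw [h5 p K K₁ ε₁ hC (K₁.val : K₁ →+* AlgebraicClosure K) hj _ hNc bu hbp (hgen bu hcb) v hv,
          hbu']
    have hNg : IsGalois K (nf c') := hNc.2
    refine h3 p K ιinf ιp Lg (S i) (hcl i) M (χ₀ i) (hinj i) hcop hnl δ (Φ (c i)) (P (c i)) horder
      hPhi' K₁ M₁ ε₁ hT b (fun h => hb0 (by rw [h]; rfl)) hb3 hbom hsel
      (M₁.val : M₁ →+* AlgebraicClosure K) hval s ?_ ?_ (nf c') hNc.1 ?_ L hNL ?_
    · rw [hs]
      exact (hval' _).symm
    · rintro ⟨y', hy'⟩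
      apply hbp
      have : FiniteDimensional K₁ M₁ := FiniteDimensional.right K K₁ M₁
      refine pw_desc hp.pos hc2 bu y' ?_
      apply M₁.val.injective
      rw [map_pow, hbu']
      have hy2 : (M₁.val y' : AlgebraicClosure K) = s := hy'
      have hy3 : (M₁.val y' : AlgebraicClosure K) ^ p =
          M₁.val (algebraMap K₁ M₁ (b : K₁)) := by
        rw [hy2, hs]
        exact (hval' _).symm
      exact hy3
    · intro g g1 g2
      refine hgen bu hcb s ?_ g g1 ?_
      · rw [hbu', hs]; rfl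
      · intro x
        have := g2 (algebraMap K₁ M₁ x)
        have h9 : (M₁.val : M₁ →+* AlgebraicClosure K) (algebraMap K₁ M₁ x) =
          (K₁.val : K₁ →+* AlgebraicClosure K) x := hval' x
        rw [h9] at this
        exact this
    · rw [← hset]
      exact hAdm
  have hmm := hmom (c i₀)
  obtain ⟨q1, q2, q3, q4⟩ := h4 p K K₁ ε₁ nf (fun c' h => (n1 c' h).1) n2 n3 n4 n Bd G
    ((Q : ℝ) / (p * (Q - 1))) hθ hclaim hmm.1 hmm.2.1 hmm.2.2.1 hmm.2.2.2.1 (by
      intro t η hη
      by_cases ht : ∃ i, c i = t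
      · have h11 := (hmom t).2.2.2.2 η hη
        filter_upwards [h11] with X hX
        have hd : ((p : ℝ) ^ (P t).natDegree) = Q := by
          rw [← hdeg t]; push_cast; rfl
        rw [hd] at hX
        refine le_trans (le_of_eq ?_) hX
        have hset : {c' | c' ∈ ASet p K ε₁ ∧ c' ∈ Bd t} = {c' | c' ∈ ASet p K ε₁ ∧
            ∃ x ∈ SelC (M₁ := M₁) Lg (above (TSet ιinf ιp (S (r t))) : Set (M →+* ℂ_[p]))
              (P t) δ c', x ≠ 1} := by
          ext c'
          simp only [hBd, Set.mem_ofPred_eq, ht, true_and]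
        exact tsum_congr_set_coe (fun c' => Real.exp (-(condC K c' : ℝ) / X)) hset
      · have hemp : {c' | c' ∈ ASet p K ε₁ ∧ c' ∈ Bd t} = ∅ := by
          ext c'
          simp only [hBd, Set.mem_ofPred_eq, ht, false_and, and_false, Set.mem_empty_iff_false]
        refine Filter.Eventually.of_forall fun X => ?_
        have h12 := tsum_congr_set_coe (fun c' => Real.exp (-(condC K c' : ℝ) / X)) hemp
        refine le_trans (le_of_eq h12) ?_
        rw [tsum_empty]
        refine mul_nonneg (by linarith) (tsum_nonneg fun _ => (Real.exp_pos _).le))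
  refine ⟨q1, ?_, q3, ?_⟩
  · intro η hη
    filter_upwards [q2 η hη] with X hX
    have hset : {N | N ∈ CycF p K ∧ ∃ i, ¬ TwF ιinf ιp Lg (S i) M (χ₀ i) N} =
        {N | N ∈ CycF p K ∧ N ∉ G} := by
      ext N
      simp only [hG, Set.mem_ofPred_eq, not_forall]
    rw [mul_div_assoc]
    refine le_trans (le_of_eq ?_) hX
    exact tsum_congr_set_coe (fun N : IntermediateField K (AlgebraicClosure K) =>
      Real.exp (-(Pool.Agent.Helper11.PP.cond K N : ℝ) / X)) hset
  · intro hnQ
    have hlt' : (n : ℝ) * ((Q : ℝ) / (p * (Q - 1))) < 1 := by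
      have h11 : (n : ℝ) * Q < p * (Q - 1) := by
        have h12 : ((n * Q : ℕ) : ℝ) < ((p * (Q - 1) : ℕ) : ℝ) := by exact_mod_cast hnQ
        have h13 : 1 ≤ Q := by
          have : (1 : ℝ) ≤ Q := hQ1.le
          exact_mod_cast this
        push_cast [h13] at h12
        exact h12
      rw [← mul_div_assoc, div_lt_one (mul_pos hp0 (by linarith))]
      exact h11
    exact q4 hlt'

end Pool.Agent.Helper77.PPL
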